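import Mathlib

/-!
# A symmetric doubly stochastic matrix of order four and positive trace, determined by its spectrum
and on none of the segments `[I, C]`, `[I, P]`, `[C, P]`
-/

namespace Pool.Agent.Results.MP_3aa442_co.FourByFour

open Matrix

/-- The polytope of symmetric doubly stochastic matrices. -/
def SymDS (n : ℕ) : Set (Matrix (Fin n) (Fin n) ℝ) :=
  {A | (∀ i j, 0 ≤ A i j) ∧ (∀ i, ∑ j, A i j = 1) ∧ (∀ j, ∑ i, A i j = 1) ∧ A.IsSymm}

/-- Similarity of square matrices. -/
def Similar {n : ℕ} (A B : Matrix (Fin n) (Fin n) ℝ) : Prop :=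
  ∃ S T : Matrix (Fin n) (Fin n) ℝ, S * T = 1 ∧ T * S = 1 ∧ B = T * A * S

/-- Permutation similarity of square matrices. -/
def PermSimilar {n : ℕ} (A B : Matrix (Fin n) (Fin n) ℝ) : Prop :=
  ∃ σ : Equiv.Perm (Fin n), B = (σ.permMatrix ℝ)ᵀ * A * σ.permMatrix ℝ

/-- `A` is determined by its spectrum among the symmetric doubly stochastic matrices. -/
def IsDS {n : ℕ} (A : Matrix (Fin n) (Fin n) ℝ) : Prop :=
  A ∈ SymDS n ∧ ∀ B ∈ SymDS n, Similar A B → PermSimilar A B

/-- The matrix `C_n` with zero diagonal and all other entries `1 / (n - 1)`. -/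
noncomputable def C (n : ℕ) : Matrix (Fin n) (Fin n) ℝ :=
  Matrix.of fun i j => if i = j then 0 else 1 / ((n : ℝ) - 1)

/-- The matrix of the counterexample. -/
noncomputable def M : Matrix (Fin 4) (Fin 4) ℝ :=
  !![1/2, 1/2, 0, 0; 1/2, 1/2, 0, 0; 0, 0, 0, 1; 0, 0, 1, 0]

theorem M_mem : M ∈ SymDS 4 := by
  refine ⟨?_, ?_, ?_, ?_⟩
  · intro i j
    fin_cases i <;> fin_cases j <;> simp [M]
  · intro i
    fin_cases i <;> simp [M, Fin.sum_univ_four] <;> norm_num
  · intro i
    fin_cases i <;> simp [M, Fin.sum_univ_four] <;> norm_num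
  · ext i j
    fin_cases i <;> fin_cases j <;> simp [M]

theorem permMatrix_conj {n : ℕ} (σ : Equiv.Perm (Fin n)) (A : Matrix (Fin n) (Fin n) ℝ) :
    (σ.permMatrix ℝ)ᵀ * A * σ.permMatrix ℝ = A.submatrix σ.symm σ.symm := by
  rw [transpose_permMatrix, Equiv.Perm.permMatrix, Equiv.Perm.permMatrix,
    PEquiv.toMatrix_toPEquiv_mul, PEquiv.mul_toMatrix_toPEquiv]
  rfl

/-- A symmetric doubly stochastic matrix with an eigenvector for `-1` and a positive diagonal entry
has a pair of indices that it swaps. -/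
theorem exists_swap {B : Matrix (Fin 4) (Fin 4) ℝ} (hB : B ∈ SymDS 4) {y : Fin 4 → ℝ} (hy : y ≠ 0)
    (hBy : B *ᵥ y = -y) (htr : trace B = 1) : ∃ p q : Fin 4, p ≠ q ∧ B p q = 1 := by
  obtain ⟨hnn, hrow, -, hsymm⟩ := hB
  obtain ⟨i₀, hi₀⟩ := Finite.exists_max (fun i => |y i|)
  set m := |y i₀| with hm
  have hmpos : 0 < m := by
    rw [hm, abs_pos]
    intro h0
    apply hy
    funext i
    have h1 : |y i| ≤ |y i₀| := hi₀ i
    rw [h0, abs_zero] at h1
    exact abs_nonpos_iff.1 h1
  have hmul : ∀ i, ∑ j, B i j * y j = - y i := fun i => congrFun hBy i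
  have ha : ∀ i, y i = m → ∀ j, y j ≠ -m → B i j = 0 := by
    intro i hi j hj
    have h0 : ∑ j, B i j * (m + y j) = 0 := by
      simp only [mul_add, Finset.sum_add_distrib, ← Finset.sum_mul, hrow i, hmul i, hi]
      ring
    have h1 := (Finset.sum_eq_zero_iff_of_nonneg (fun j _ => mul_nonneg (hnn i j)
      (by linarith [neg_le_of_abs_le (hi₀ j)]))).1 h0 j (Finset.mem_univ j)
    rcases mul_eq_zero.1 h1 with h | h
    · exact h
    · exact absurd (by linarith) hj
  have hb : ∀ i, y i = -m → ∀ j, y j ≠ m → B i j = 0 := by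
    intro i hi j hj
    have h0 : ∑ j, B i j * (m - y j) = 0 := by
      simp only [mul_sub, Finset.sum_sub_distrib, ← Finset.sum_mul, hrow i, hmul i, hi]
      ring
    have h1 := (Finset.sum_eq_zero_iff_of_nonneg (fun j _ => mul_nonneg (hnn i j)
      (by linarith [le_of_abs_le (hi₀ j)]))).1 h0 j (Finset.mem_univ j)
    rcases mul_eq_zero.1 h1 with h | h
    · exact h
    · exact absurd (by linarith) hj
  set P := Finset.univ.filter (fun i => y i = m) with hP
  set N := Finset.univ.filter (fun i => y i = -m) with hN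
  have hsP : ∀ i ∈ P, ∑ j ∈ N, B i j = 1 := by
    intro i hi
    rw [← hrow i]
    refine Finset.sum_subset (Finset.subset_univ _) fun j _ hj => ?_
    exact ha i (by simpa [hP] using hi) j (by simpa [hN] using hj)
  have hsN : ∀ i ∈ N, ∑ j ∈ P, B i j = 1 := by
    intro i hi
    rw [← hrow i]
    refine Finset.sum_subset (Finset.subset_univ _) fun j _ hj => ?_
    exact hb i (by simpa [hN] using hi) j (by simpa [hP] using hj)
  have hcard : (P.card : ℝ) = N.card := by
    calc (P.card : ℝ) = ∑ i ∈ P, ∑ j ∈ N, B i j := by rw [Finset.sum_congr rfl hsP]; simp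
      _ = ∑ j ∈ N, ∑ i ∈ P, B i j := Finset.sum_comm
      _ = ∑ j ∈ N, ∑ i ∈ P, B j i :=
          Finset.sum_congr rfl fun j _ => Finset.sum_congr rfl fun i _ => hsymm.apply j i
      _ = N.card := by rw [Finset.sum_congr rfl hsN]; simp
  have hcard' : P.card = N.card := by exact_mod_cast hcard
  obtain ⟨q, hq⟩ : ∃ q, B q q ≠ 0 := by
    by_contra hcon
    push Not at hcon
    rw [trace] at htr
    simp [hcon] at htr
  have hqP : q ∉ P := fun h => hq (ha q (by simpa [hP] using h) q
    (by have : y q = m := by simpa [hP] using h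
        rw [this]; linarith))
  have hqN : q ∉ N := fun h => hq (hb q (by simpa [hN] using h) q
    (by have : y q = -m := by simpa [hN] using h
        rw [this]; linarith))
  have hdisj : Disjoint P N := by
    rw [Finset.disjoint_left]
    intro i hi hi'
    have h1 : y i = m := by simpa [hP] using hi
    have h2 : y i = -m := by simpa [hN] using hi'
    linarith
  have hle : P.card + N.card ≤ 3 := by
    rw [← Finset.card_union_of_disjoint hdisj]
    have : P ∪ N ⊆ Finset.univ.erase q := by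
      intro i hi
      rw [Finset.mem_erase]
      refine ⟨?_, Finset.mem_univ _⟩
      rintro rfl
      rcases Finset.mem_union.1 hi with h | h
      · exact hqP h
      · exact hqN h
    exact (Finset.card_le_card this).trans (by simp)
  have hne : 1 ≤ P.card + N.card := by
    rcases abs_choice (y i₀) with h | h
    · have : i₀ ∈ P := by simp [hP, hm, h]
      have := Finset.card_pos.2 ⟨_, this⟩
      omega
    · have : i₀ ∈ N := by simp [hN, hm, h]
      have := Finset.card_pos.2 ⟨_, this⟩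
      omega
  have hP1 : P.card = 1 := by omega
  have hN1 : N.card = 1 := by omega
  obtain ⟨p, hp⟩ := Finset.card_eq_one.1 hP1
  obtain ⟨n, hn⟩ := Finset.card_eq_one.1 hN1
  refine ⟨p, n, ?_, ?_⟩
  · rintro rfl
    rw [hp, hn] at hdisj
    simp at hdisj
  · have := hsP p (by rw [hp]; simp)
    rw [hn] at this
    simpa using this

theorem exists_perm : ∀ p q : Fin 4, p ≠ q → ∃ σ : Equiv.Perm (Fin 4), σ p = 2 ∧ σ q = 3 := by
  decide

theorem M_isDS : IsDS M := by
  refine ⟨M_mem, ?_⟩
  rintro B hB ⟨S, T, hST, hTS, hBM⟩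
  have htr : trace B = 1 := by
    rw [hBM, trace_mul_comm, ← Matrix.mul_assoc, hST, Matrix.one_mul]
    simp [trace, M, Fin.sum_univ_four]
    norm_num
  have hex : ∃ p q : Fin 4, p ≠ q ∧ B p q = 1 := by
    refine exists_swap hB (y := T *ᵥ ![0, 0, 1, -1]) ?_ ?_ htr
    · intro h
      have h2 := congrArg (fun v => S *ᵥ v) h
      simp only [mulVec_mulVec, hST, one_mulVec, mulVec_zero] at h2
      have := congrFun h2 2
      simp at this
    · rw [hBM, mulVec_mulVec]
      have e : T * M * S * T = T * M := by rw [Matrix.mul_assoc, hST, Matrix.mul_one]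
      rw [e, ← mulVec_mulVec, ← mulVec_neg]
      congr 1
      ext i
      fin_cases i <;> simp [M, mulVec, dotProduct, Fin.sum_univ_four]
  obtain ⟨p, q, hpq, hBpq⟩ := hex
  obtain ⟨σ, hσp, hσq⟩ := exists_perm p q hpq
  refine ⟨σ.symm, ?_⟩
  obtain ⟨hnn, hrow, hcol, hsymm⟩ := hB
  have hnn' : ∀ i j, 0 ≤ (B.submatrix σ.symm σ.symm) i j := fun i j => hnn _ _
  have hrow' : ∀ i, ∑ j, (B.submatrix σ.symm σ.symm) i j = 1 := fun i => by
    rw [← hrow (σ.symm i)]
    exact Equiv.sum_comp σ.symm (fun j => B (σ.symm i) j)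
  have hs' : ∀ i j, (B.submatrix σ.symm σ.symm) i j = (B.submatrix σ.symm σ.symm) j i :=
    fun i j => (hsymm.apply _ _).symm
  have htr' : trace (B.submatrix σ.symm σ.symm) = 1 := by
    rw [← htr]
    exact Equiv.sum_comp σ.symm (fun j => B j j)
  have h23 : (B.submatrix σ.symm σ.symm) 2 3 = 1 := by
    rw [submatrix_apply, ← hσp, ← hσq, Equiv.symm_apply_apply, Equiv.symm_apply_apply, hBpq]
  have hMB : B.submatrix σ.symm σ.symm = M := by
    generalize B.submatrix σ.symm σ.symm = D at *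
    have r0 := hrow' 0
    have r1 := hrow' 1
    have r2 := hrow' 2
    have r3 := hrow' 3
    rw [Fin.sum_univ_four] at r0 r1 r2 r3
    rw [trace, Fin.sum_univ_four] at htr'
    simp only [diag_apply] at htr'
    have h20 : D 2 0 = 0 := by linarith [hnn' 2 0, hnn' 2 1, hnn' 2 2]
    have h21 : D 2 1 = 0 := by linarith [hnn' 2 0, hnn' 2 1, hnn' 2 2]
    have h22 : D 2 2 = 0 := by linarith [hnn' 2 0, hnn' 2 1, hnn' 2 2]
    have h32 : D 3 2 = 1 := by rw [hs' 3 2, h23]
    have h30 : D 3 0 = 0 := by linarith [hnn' 3 0, hnn' 3 1, hnn' 3 3]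
    have h31 : D 3 1 = 0 := by linarith [hnn' 3 0, hnn' 3 1, hnn' 3 3]
    have h33 : D 3 3 = 0 := by linarith [hnn' 3 0, hnn' 3 1, hnn' 3 3]
    have h02 : D 0 2 = 0 := by rw [hs' 0 2, h20]
    have h12 : D 1 2 = 0 := by rw [hs' 1 2, h21]
    have h03 : D 0 3 = 0 := by rw [hs' 0 3, h30]
    have h13 : D 1 3 = 0 := by rw [hs' 1 3, h31]
    have h10 : D 1 0 = D 0 1 := hs' 1 0
    have h00 : D 0 0 = 1 / 2 := by linarith
    have h11 : D 1 1 = 1 / 2 := by linarith
    have h01 : D 0 1 = 1 / 2 := by linarith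
    rw [h01] at h10
    ext i j
    fin_cases i <;> fin_cases j <;>
      simp [M, h00, h01, h02, h03, h10, h11, h12, h13, h20, h21, h22, h23, h30, h31, h32, h33]
  rw [permMatrix_conj, ← hMB]
  ext i j
  simp

/-- **Negative answer.** -/
theorem result : ∃ (n : ℕ) (_ : 2 ≤ n) (A : Matrix (Fin n) (Fin n) ℝ),
    IsDS A ∧ 0 < trace A ∧ trace A ≤ n ∧ A ∉ segment ℝ (1 : Matrix (Fin n) (Fin n) ℝ) (C n) ∧
      ∀ P ∈ Set.extremePoints ℝ (SymDS n), A ∉ segment ℝ (1 : Matrix (Fin n) (Fin n) ℝ) P ∧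
        A ∉ segment ℝ (C n) P := by
  have hnotext : M ∉ Set.extremePoints ℝ (SymDS 4) := by
    intro h
    rw [mem_extremePoints] at h
    let X : Matrix (Fin 4) (Fin 4) ℝ := !![1, 0, 0, 0; 0, 1, 0, 0; 0, 0, 0, 1; 0, 0, 1, 0]
    let Y : Matrix (Fin 4) (Fin 4) ℝ := !![0, 1, 0, 0; 1, 0, 0, 0; 0, 0, 0, 1; 0, 0, 1, 0]
    have hX : X ∈ SymDS 4 := by
      refine ⟨?_, ?_, ?_, ?_⟩
      · intro i j
        fin_cases i <;> fin_cases j <;> simp [X]
      · intro i
        fin_cases i <;> simp [X, Fin.sum_univ_four]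
      · intro i
        fin_cases i <;> simp [X, Fin.sum_univ_four]
      · ext i j
        fin_cases i <;> fin_cases j <;> simp [X]
    have hY : Y ∈ SymDS 4 := by
      refine ⟨?_, ?_, ?_, ?_⟩
      · intro i j
        fin_cases i <;> fin_cases j <;> simp [Y]
      · intro i
        fin_cases i <;> simp [Y, Fin.sum_univ_four]
      · intro i
        fin_cases i <;> simp [Y, Fin.sum_univ_four]
      · ext i j
        fin_cases i <;> fin_cases j <;> simp [Y]
    have hXY := h.2 X hX Y hY ⟨1 / 2, 1 / 2, by norm_num, by norm_num, by norm_num, by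
      ext i j
      fin_cases i <;> fin_cases j <;> simp [X, Y, M]
      all_goals norm_num⟩
    have := congrFun (congrFun hXY.1 0) 0
    simp [X, M] at this
  have hzero : ∀ P ∈ Set.extremePoints ℝ (SymDS 4), ∀ N : Matrix (Fin 4) (Fin 4) ℝ, ∀ i j : Fin 4,
      M i j = 0 → 0 < N i j → M ∉ segment ℝ N P := by
    rintro P hP N i j hij hN ⟨s, t, hs, ht, hst, he⟩
    have hPs := (mem_extremePoints.1 hP).1
    have e1 := congrFun (congrFun he i) j
    rw [hij] at e1
    simp only [Matrix.add_apply, Matrix.smul_apply, smul_eq_mul] at e1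
    have h1 : 0 ≤ t * P i j := mul_nonneg ht (hPs.1 i j)
    have h2 : 0 ≤ s * N i j := mul_nonneg hs hN.le
    have h3 : s * N i j = 0 := by linarith
    have h4 : s = 0 := (mul_eq_zero.1 h3).resolve_right hN.ne'
    have h5 : t = 1 := by linarith
    rw [h4, h5, zero_smul, one_smul, zero_add] at he
    exact hnotext (he ▸ hP)
  refine ⟨4, by norm_num, M, M_isDS, ?_, ?_, ?_, fun P hP => ⟨?_, ?_⟩⟩
  · simp [trace, M, Fin.sum_univ_four]
  · simp [trace, M, Fin.sum_univ_four]
    norm_num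
  · rintro ⟨s, t, hs, ht, hst, he⟩
    have e0 := congrFun (congrFun he 0) 0
    have e2 := congrFun (congrFun he 2) 2
    simp [M, C] at e0 e2
    linarith
  · exact hzero P hP 1 2 2 (by simp [M]) (by simp)
  · refine hzero P hP (C 4) 0 2 (by simp [M]) ?_
    simp [C]

end Pool.Agent.Results.MP_3aa442_co.FourByFour
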